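import Mathlib.Data.Nat.Choose.Basic

/-!
Word game of MP_61ed4e: bit-parallel computation of the set of positions having a move into a
given set.  Letters: `true` = D, `false` = R.  A set of words of length `n` with `c` D's is coded by
a natural number, bit `rk w` telling whether `w` is in the set (`rk` = lexicographic rank).
-/

namespace R125.Mono

/-- Number of words of length `n + 1` with `c` D's beginning with D. -/
def hd (n : ℕ) : ℕ → ℕ
  | 0 => 0
  | c+1 => Nat.choose n c

/-- Lexicographic rank of a word among the words of the same length and content. -/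
def rk : List Bool → ℕ
  | [] => 0
  | true :: w => rk w
  | false :: w => hd w.length (w.count true) + rk w

/-- Mask of the words `u ++ D :: R :: v` with `v` of length `l` with `e` D's, among the words of
length `l + 2 + j` with `c` D's. -/
def q (l e : ℕ) : ℕ → ℕ → ℕ
  | 0, c => bif Nat.beq c (e+1) then
      Nat.shiftLeft (Nat.sub (Nat.shiftLeft 1 (Nat.choose l e)) 1) (hd l e) else 0
  | _+1, 0 => 0
  | j+1, c+1 => Nat.lor (q l e j c) (Nat.shiftLeft (q l e j (c+1)) (Nat.choose (l+2+j) c))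

/-- One adjacent swap applied to the sets `g e`. -/
def st (g : ℕ → ℕ) (l j c : ℕ) : ℕ → ℕ
  | 0 => 0
  | e+1 => Nat.lor (st g l j c e)
      (Nat.land (Nat.shiftRight (g e) (Nat.choose l e)) (q l e j c))

/-- Selector for the D-jumps. -/
def gD (A U : ℕ) (e : ℕ) : ℕ := bif Nat.beq e 0 then A else Nat.lor A U

/-- Selector for the R-jumps. -/
def gR (fl : Bool) (j c : ℕ) (A U : ℕ) (e : ℕ) : ℕ :=
  bif and fl (Nat.beq (c-1-e) j) then A else Nat.lor A U

/-- Loop for the D-jumps. -/
def dGo (n c A : ℕ) : ℕ → ℕ × ℕ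
  | 0 => (0, 0)
  | l+1 =>
    let P := dGo n c A l
    let U' := st (gD A P.1) l (n-2-l) c c
    (U', Nat.lor P.2 U')

/-- Loop for the R-jumps. -/
def rGo (fl : Bool) (n c A : ℕ) : ℕ → ℕ → ℕ → ℕ
  | 0, _, tot => tot
  | l+1, U, tot =>
    let U' := st (gR fl (n-2-l) c A U) l (n-2-l) c c
    rGo fl n c A l U' (Nat.lor tot U')

/-- The words having a move into the set `A`. -/
def leafPre (fl : Bool) (n c A : ℕ) : ℕ :=
  Nat.lor (dGo n c A (n-1)).2 (rGo fl n c A (n-1) 0 0)

/-- Jumps of a D put in front: `T` is a set of words with `c + 1` D's. -/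
def f1N : ℕ → ℕ → ℕ → ℕ
  | 0, _, _ => 0
  | n+1, c, T => Nat.shiftLeft (Nat.lor (Nat.mod T (Nat.pow 2 (Nat.choose n c)))
      (bif Nat.beq c 0 then 0 else f1N n c (Nat.shiftRight T (Nat.choose n c)))) (hd n c)

/-- Jumps of an R over D's, the first of which is put in front. -/
def f2N (ok : Bool) : ℕ → ℕ → ℕ → ℕ
  | 0, _, _ => 0
  | n+1, 0, T => Nat.mod T (Nat.pow 2 (Nat.choose n 0))
  | n+1, c+1, T =>
    let A := Nat.mod T (Nat.pow 2 (Nat.choose n (c+1)))
    Nat.lor (bif ok then f2N ok n c A else 0) (Nat.shiftLeft A (Nat.choose n c))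

/-- Sets of words split according to the first `d` letters. -/
def Tr : ℕ → Type
  | 0 => ℕ
  | d+1 => Tr d × Tr d

/-- The empty set. -/
def zero : (d : ℕ) → Tr d
  | 0 => (0 : ℕ)
  | d+1 => (zero d, zero d)

/-- Union. -/
def or' : (d : ℕ) → Tr d → Tr d → Tr d
  | 0, a, b => Nat.lor a b
  | d+1, a, b => (or' d a.1 b.1, or' d a.2 b.2)

/-- `f1N` for split sets. -/
def f1 : (d : ℕ) → ℕ → ℕ → Tr d → Tr d
  | 0, n, c, T => f1N n c T
  | d+1, n, c, T => (zero d, bif Nat.beq c 0 then T.1 else or' d T.1 (f1 d (n-1) c T.2))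

/-- `f2N` for split sets. -/
def f2 (ok : Bool) : (d : ℕ) → ℕ → ℕ → Tr d → Tr d
  | 0, n, c, T => f2N ok n c T
  | d+1, n, c, T => (bif ok then f2 ok d (n-1) (c-1) T.1 else zero d, T.1)

/-- The words having a move into a given set. -/
def pre : (d : ℕ) → Bool → ℕ → ℕ → Tr d → Tr d
  | 0, fl, n, c, T => leafPre fl n c T
  | d+1, fl, n, c, T =>
    (or' d (pre d fl (n-1) (c-1) T.1)
      (or' d (f1 d (n-1) (c-1) T.2) (f2 (not fl) d (n-1) (c-1) T.2)),
      pre d false (n-1) c T.2)

/-- The leaf of a split set. -/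
def get : (d : ℕ) → Tr d → List Bool → ℕ
  | 0, A, _ => A
  | _+1, _, [] => 0
  | d+1, T, x :: p => bif x then get d T.1 p else get d T.2 p

/-- Concatenation of consecutive blocks of `B` bits. -/
def pairUp (B : ℕ) : List ℕ → List ℕ
  | a :: b :: r => Nat.lor a (Nat.shiftLeft b B) :: pairUp B r
  | l => l

/-- Concatenation of blocks of `B` bits. -/
def asm : ℕ → ℕ → List ℕ → ℕ
  | 0, _, [] => 0
  | 0, _, a :: _ => a
  | k+1, B, l => asm k (Nat.mul 2 B) (pairUp B l)

end R125.Mono
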