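import Pool.Agent.R125.Mono.Tree

/-! Kernel computation: the leaves, part 1. -/

namespace R125.Mono

theorem okDDRRDR : okL [true, true, false, false, true, false] 6 = true := by decide +kernel

theorem okDRDDDR : okL [true, false, true, true, true, false] 5 = true := by decide +kernel

theorem okRDDDRR : okL [false, true, true, true, false, false] 6 = true := by decide +kernel

theorem okRRDDDD : okL [false, false, true, true, true, true] 5 = true := by decide +kernel

theorem okRRDRDD : okL [false, false, true, false, true, true] 6 = true := by decide +kernel

theorem okRRRRRR : okL [false, false, false, false, false, false] 9 = true := by decide +kernel

end R125.Mono
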