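import Pool.Agent.R125.Mono.Tree

/-! Kernel computation: the leaves, part 3. -/

namespace R125.Mono

theorem okDDDDDR : okL [true, true, true, true, true, false] 4 = true := by decide +kernel

theorem okDDDDRR : okL [true, true, true, true, false, false] 5 = true := by decide +kernel

theorem okDRDDRD : okL [true, false, true, true, false, true] 5 = true := by decide +kernel

theorem okDRDDRR : okL [true, false, true, true, false, false] 6 = true := by decide +kernel

theorem okDRRRDR : okL [true, false, false, false, true, false] 7 = true := by decide +kernel

theorem okRDDRRD : okL [false, true, true, false, false, true] 6 = true := by decide +kernel

theorem okRDRRRR : okL [false, true, false, false, false, false] 8 = true := by decide +kernel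

theorem okRRDRDR : okL [false, false, true, false, true, false] 7 = true := by decide +kernel

end R125.Mono
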