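import Pool.Agent.R125.Mono.Tree

/-! Kernel computation: the leaves, part 6. -/

namespace R125.Mono

theorem okDDRDDD : okL [true, true, false, true, true, true] 4 = true := by decide +kernel

theorem okDDRDDR : okL [true, true, false, true, true, false] 5 = true := by decide +kernel

theorem okDRRDDR : okL [true, false, false, true, true, false] 6 = true := by decide +kernel

theorem okRDDDDR : okL [false, true, true, true, true, false] 5 = true := by decide +kernel

theorem okRDRDRR : okL [false, true, false, true, false, false] 7 = true := by decide +kernel

theorem okRDRRDD : okL [false, true, false, false, true, true] 6 = true := by decide +kernel

theorem okRRRDRD : okL [false, false, false, true, false, true] 7 = true := by decide +kernel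

theorem okRRRRDR : okL [false, false, false, false, true, false] 8 = true := by decide +kernel

end R125.Mono
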