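import Pool.Agent.R125.Mono.Defs
import Pool.Agent.R125.Mono.Data1
import Pool.Agent.R125.Mono.Data2
import Pool.Agent.R125.Mono.Data3
import Pool.Agent.R125.Mono.Data4
import Pool.Agent.R125.Mono.Data5
import Pool.Agent.R125.Mono.Data6
import Pool.Agent.R125.Mono.Data7
import Pool.Agent.R125.Mono.Data8

/-! The set of lost positions. -/

namespace R125.Mono

/-- Leaf DDDDDD. -/
def ADDDDDD : Nat := asm 0 16384 LDDDDDD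

/-- Leaf DDDDDR. -/
def ADDDDDR : Nat := asm 0 16384 LDDDDDR

/-- Leaf DDDDRD. -/
def ADDDDRD : Nat := asm 0 16384 LDDDDRD

/-- Leaf DDDDRR. -/
def ADDDDRR : Nat := asm 3 16384 LDDDDRR

/-- Leaf DDDRDD. -/
def ADDDRDD : Nat := asm 0 16384 LDDDRDD

/-- Leaf DDDRDR. -/
def ADDDRDR : Nat := asm 3 16384 LDDDRDR

/-- Leaf DDDRRD. -/
def ADDDRRD : Nat := asm 3 16384 LDDDRRD

/-- Leaf DDDRRR. -/
def ADDDRRR : Nat := asm 4 16384 LDDDRRR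

/-- Leaf DDRDDD. -/
def ADDRDDD : Nat := asm 0 16384 LDDRDDD

/-- Leaf DDRDDR. -/
def ADDRDDR : Nat := asm 3 16384 LDDRDDR

/-- Leaf DDRDRD. -/
def ADDRDRD : Nat := asm 3 16384 LDDRDRD

/-- Leaf DDRDRR. -/
def ADDRDRR : Nat := asm 4 16384 LDDRDRR

/-- Leaf DDRRDD. -/
def ADDRRDD : Nat := asm 3 16384 LDDRRDD

/-- Leaf DDRRDR. -/
def ADDRRDR : Nat := asm 4 16384 LDDRRDR

/-- Leaf DDRRRD. -/
def ADDRRRD : Nat := asm 4 16384 LDDRRRD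

/-- Leaf DDRRRR. -/
def ADDRRRR : Nat := asm 6 16384 LDDRRRR

/-- Leaf DRDDDD. -/
def ADRDDDD : Nat := asm 0 16384 LDRDDDD

/-- Leaf DRDDDR. -/
def ADRDDDR : Nat := asm 3 16384 LDRDDDR

/-- Leaf DRDDRD. -/
def ADRDDRD : Nat := asm 3 16384 LDRDDRD

/-- Leaf DRDDRR. -/
def ADRDDRR : Nat := asm 4 16384 LDRDDRR

/-- Leaf DRDRDD. -/
def ADRDRDD : Nat := asm 3 16384 LDRDRDD

/-- Leaf DRDRDR. -/
def ADRDRDR : Nat := asm 4 16384 LDRDRDR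

/-- Leaf DRDRRD. -/
def ADRDRRD : Nat := asm 4 16384 LDRDRRD

/-- Leaf DRDRRR. -/
def ADRDRRR : Nat := asm 6 16384 LDRDRRR

/-- Leaf DRRDDD. -/
def ADRRDDD : Nat := asm 3 16384 LDRRDDD

/-- Leaf DRRDDR. -/
def ADRRDDR : Nat := asm 4 16384 LDRRDDR

/-- Leaf DRRDRD. -/
def ADRRDRD : Nat := asm 4 16384 LDRRDRD

/-- Leaf DRRDRR. -/
def ADRRDRR : Nat := asm 6 16384 LDRRDRR

/-- Leaf DRRRDD. -/
def ADRRRDD : Nat := asm 4 16384 LDRRRDD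

/-- Leaf DRRRDR. -/
def ADRRRDR : Nat := asm 6 16384 LDRRRDR

/-- Leaf DRRRRD. -/
def ADRRRRD : Nat := asm 6 16384 LDRRRRD

/-- Leaf DRRRRR. -/
def ADRRRRR : Nat := asm 7 16384 LDRRRRR

/-- Leaf RDDDDD. -/
def ARDDDDD : Nat := asm 0 16384 LRDDDDD

/-- Leaf RDDDDR. -/
def ARDDDDR : Nat := asm 3 16384 LRDDDDR

/-- Leaf RDDDRD. -/
def ARDDDRD : Nat := asm 3 16384 LRDDDRD

/-- Leaf RDDDRR. -/
def ARDDDRR : Nat := asm 4 16384 LRDDDRR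

/-- Leaf RDDRDD. -/
def ARDDRDD : Nat := asm 3 16384 LRDDRDD

/-- Leaf RDDRDR. -/
def ARDDRDR : Nat := asm 4 16384 LRDDRDR

/-- Leaf RDDRRD. -/
def ARDDRRD : Nat := asm 4 16384 LRDDRRD

/-- Leaf RDDRRR. -/
def ARDDRRR : Nat := asm 6 16384 LRDDRRR

/-- Leaf RDRDDD. -/
def ARDRDDD : Nat := asm 3 16384 LRDRDDD

/-- Leaf RDRDDR. -/
def ARDRDDR : Nat := asm 4 16384 LRDRDDR

/-- Leaf RDRDRD. -/
def ARDRDRD : Nat := asm 4 16384 LRDRDRD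

/-- Leaf RDRDRR. -/
def ARDRDRR : Nat := asm 6 16384 LRDRDRR

/-- Leaf RDRRDD. -/
def ARDRRDD : Nat := asm 4 16384 LRDRRDD

/-- Leaf RDRRDR. -/
def ARDRRDR : Nat := asm 6 16384 LRDRRDR

/-- Leaf RDRRRD. -/
def ARDRRRD : Nat := asm 6 16384 LRDRRRD

/-- Leaf RDRRRR. -/
def ARDRRRR : Nat := asm 7 16384 LRDRRRR

/-- Leaf RRDDDD. -/
def ARRDDDD : Nat := asm 3 16384 LRRDDDD

/-- Leaf RRDDDR. -/
def ARRDDDR : Nat := asm 4 16384 LRRDDDR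

/-- Leaf RRDDRD. -/
def ARRDDRD : Nat := asm 4 16384 LRRDDRD

/-- Leaf RRDDRR. -/
def ARRDDRR : Nat := asm 6 16384 LRRDDRR

/-- Leaf RRDRDD. -/
def ARRDRDD : Nat := asm 4 16384 LRRDRDD

/-- Leaf RRDRDR. -/
def ARRDRDR : Nat := asm 6 16384 LRRDRDR

/-- Leaf RRDRRD. -/
def ARRDRRD : Nat := asm 6 16384 LRRDRRD

/-- Leaf RRDRRR. -/
def ARRDRRR : Nat := asm 7 16384 LRRDRRR

/-- Leaf RRRDDD. -/
def ARRRDDD : Nat := asm 4 16384 LRRRDDD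

/-- Leaf RRRDDR. -/
def ARRRDDR : Nat := asm 6 16384 LRRRDDR

/-- Leaf RRRDRD. -/
def ARRRDRD : Nat := asm 6 16384 LRRRDRD

/-- Leaf RRRDRR. -/
def ARRRDRR : Nat := asm 7 16384 LRRRDRR

/-- Leaf RRRRDD. -/
def ARRRRDD : Nat := asm 6 16384 LRRRRDD

/-- Leaf RRRRDR. -/
def ARRRRDR : Nat := asm 7 16384 LRRRRDR

/-- Leaf RRRRRD. -/
def ARRRRRD : Nat := asm 7 16384 LRRRRRD

/-- Leaf RRRRRR. -/
def ARRRRRR : Nat := asm 8 16384 LRRRRRR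

/-- The set of lost positions. -/
def T0 : Tr 6 :=
  ((((((ADDDDDD, ADDDDDR),
  (ADDDDRD, ADDDDRR)),
  ((ADDDRDD, ADDDRDR),
  (ADDDRRD, ADDDRRR))),
  (((ADDRDDD, ADDRDDR),
  (ADDRDRD, ADDRDRR)),
  ((ADDRRDD, ADDRRDR),
  (ADDRRRD, ADDRRRR)))),
  ((((ADRDDDD, ADRDDDR),
  (ADRDDRD, ADRDDRR)),
  ((ADRDRDD, ADRDRDR),
  (ADRDRRD, ADRDRRR))),
  (((ADRRDDD, ADRRDDR),
  (ADRRDRD, ADRRDRR)),
  ((ADRRRDD, ADRRRDR),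
  (ADRRRRD, ADRRRRR))))),
  (((((ARDDDDD, ARDDDDR),
  (ARDDDRD, ARDDDRR)),
  ((ARDDRDD, ARDDRDR),
  (ARDDRRD, ARDDRRR))),
  (((ARDRDDD, ARDRDDR),
  (ARDRDRD, ARDRDRR)),
  ((ARDRRDD, ARDRRDR),
  (ARDRRRD, ARDRRRR)))),
  ((((ARRDDDD, ARRDDDR),
  (ARRDDRD, ARRDDRR)),
  ((ARRDRDD, ARRDRDR),
  (ARRDRRD, ARRDRRR))),
  (((ARRRDDD, ARRRDDR),
  (ARRRDRD, ARRRDRR)),
  ((ARRRRDD, ARRRRDR),
  (ARRRRRD, ARRRRRR))))))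

/-- The check of one leaf. -/
def okL (p : List Bool) (c : Nat) : Bool :=
  Nat.beq (Nat.xor (get 6 (pre 6 true 32 9 T0) p) (get 6 T0 p))
    (Nat.sub (Nat.shiftLeft 1 (Nat.choose 26 c)) 1)

end R125.Mono
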