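import Pool.Agent.R125.Mono.P4
import Pool.Agent.R125.Mono.Tree
import Pool.Agent.R125.Mono.Leaf1
import Pool.Agent.R125.Mono.Leaf2
import Pool.Agent.R125.Mono.Leaf3
import Pool.Agent.R125.Mono.Leaf4
import Pool.Agent.R125.Mono.Leaf5
import Pool.Agent.R125.Mono.Leaf6
import Pool.Agent.R125.Mono.Leaf7
import Pool.Agent.R125.Mono.Leaf8
import Pool.Agent.R464.MG.Iface

/-! MP_61ed4e_co: the computational half (StmtK), assembled. -/

namespace R125.Mono

theorem all_leaves (a b c d e f : Bool) : ∃ n : ℕ,
    n + List.count true [a, b, c, d, e, f] = 9 ∧ okL [a, b, c, d, e, f] n = true :=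
  match a, b, c, d, e, f with
  | true, true, true, true, true, true => ⟨3, by decide, okDDDDDD⟩
  | true, true, true, true, true, false => ⟨4, by decide, okDDDDDR⟩
  | true, true, true, true, false, true => ⟨4, by decide, okDDDDRD⟩
  | true, true, true, true, false, false => ⟨5, by decide, okDDDDRR⟩
  | true, true, true, false, true, true => ⟨4, by decide, okDDDRDD⟩
  | true, true, true, false, true, false => ⟨5, by decide, okDDDRDR⟩
  | true, true, true, false, false, true => ⟨5, by decide, okDDDRRD⟩
  | true, true, true, false, false, false => ⟨6, by decide, okDDDRRR⟩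
  | true, true, false, true, true, true => ⟨4, by decide, okDDRDDD⟩
  | true, true, false, true, true, false => ⟨5, by decide, okDDRDDR⟩
  | true, true, false, true, false, true => ⟨5, by decide, okDDRDRD⟩
  | true, true, false, true, false, false => ⟨6, by decide, okDDRDRR⟩
  | true, true, false, false, true, true => ⟨5, by decide, okDDRRDD⟩
  | true, true, false, false, true, false => ⟨6, by decide, okDDRRDR⟩
  | true, true, false, false, false, true => ⟨6, by decide, okDDRRRD⟩
  | true, true, false, false, false, false => ⟨7, by decide, okDDRRRR⟩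
  | true, false, true, true, true, true => ⟨4, by decide, okDRDDDD⟩
  | true, false, true, true, true, false => ⟨5, by decide, okDRDDDR⟩
  | true, false, true, true, false, true => ⟨5, by decide, okDRDDRD⟩
  | true, false, true, true, false, false => ⟨6, by decide, okDRDDRR⟩
  | true, false, true, false, true, true => ⟨5, by decide, okDRDRDD⟩
  | true, false, true, false, true, false => ⟨6, by decide, okDRDRDR⟩
  | true, false, true, false, false, true => ⟨6, by decide, okDRDRRD⟩
  | true, false, true, false, false, false => ⟨7, by decide, okDRDRRR⟩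
  | true, false, false, true, true, true => ⟨5, by decide, okDRRDDD⟩
  | true, false, false, true, true, false => ⟨6, by decide, okDRRDDR⟩
  | true, false, false, true, false, true => ⟨6, by decide, okDRRDRD⟩
  | true, false, false, true, false, false => ⟨7, by decide, okDRRDRR⟩
  | true, false, false, false, true, true => ⟨6, by decide, okDRRRDD⟩
  | true, false, false, false, true, false => ⟨7, by decide, okDRRRDR⟩
  | true, false, false, false, false, true => ⟨7, by decide, okDRRRRD⟩
  | true, false, false, false, false, false => ⟨8, by decide, okDRRRRR⟩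
  | false, true, true, true, true, true => ⟨4, by decide, okRDDDDD⟩
  | false, true, true, true, true, false => ⟨5, by decide, okRDDDDR⟩
  | false, true, true, true, false, true => ⟨5, by decide, okRDDDRD⟩
  | false, true, true, true, false, false => ⟨6, by decide, okRDDDRR⟩
  | false, true, true, false, true, true => ⟨5, by decide, okRDDRDD⟩
  | false, true, true, false, true, false => ⟨6, by decide, okRDDRDR⟩
  | false, true, true, false, false, true => ⟨6, by decide, okRDDRRD⟩
  | false, true, true, false, false, false => ⟨7, by decide, okRDDRRR⟩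
  | false, true, false, true, true, true => ⟨5, by decide, okRDRDDD⟩
  | false, true, false, true, true, false => ⟨6, by decide, okRDRDDR⟩
  | false, true, false, true, false, true => ⟨6, by decide, okRDRDRD⟩
  | false, true, false, true, false, false => ⟨7, by decide, okRDRDRR⟩
  | false, true, false, false, true, true => ⟨6, by decide, okRDRRDD⟩
  | false, true, false, false, true, false => ⟨7, by decide, okRDRRDR⟩
  | false, true, false, false, false, true => ⟨7, by decide, okRDRRRD⟩
  | false, true, false, false, false, false => ⟨8, by decide, okRDRRRR⟩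
  | false, false, true, true, true, true => ⟨5, by decide, okRRDDDD⟩
  | false, false, true, true, true, false => ⟨6, by decide, okRRDDDR⟩
  | false, false, true, true, false, true => ⟨6, by decide, okRRDDRD⟩
  | false, false, true, true, false, false => ⟨7, by decide, okRRDDRR⟩
  | false, false, true, false, true, true => ⟨6, by decide, okRRDRDD⟩
  | false, false, true, false, true, false => ⟨7, by decide, okRRDRDR⟩
  | false, false, true, false, false, true => ⟨7, by decide, okRRDRRD⟩
  | false, false, true, false, false, false => ⟨8, by decide, okRRDRRR⟩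
  | false, false, false, true, true, true => ⟨6, by decide, okRRRDDD⟩
  | false, false, false, true, true, false => ⟨7, by decide, okRRRDDR⟩
  | false, false, false, true, false, true => ⟨7, by decide, okRRRDRD⟩
  | false, false, false, true, false, false => ⟨8, by decide, okRRRDRR⟩
  | false, false, false, false, true, true => ⟨7, by decide, okRRRRDD⟩
  | false, false, false, false, true, false => ⟨8, by decide, okRRRRDR⟩
  | false, false, false, false, false, true => ⟨8, by decide, okRRRRRD⟩
  | false, false, false, false, false, false => ⟨9, by decide, okRRRRRR⟩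

theorem xor_main (w : List Bool) (hw : w.length = 32) (hc : w.count true = 9) :
    mT 6 (pre 6 true 32 9 T0) w ↔ ¬ mT 6 T0 w := by
  rcases w with _ | ⟨a, w⟩
  · simp at hw
  rcases w with _ | ⟨b, w⟩
  · simp at hw
  rcases w with _ | ⟨c, w⟩
  · simp at hw
  rcases w with _ | ⟨d, w⟩
  · simp at hw
  rcases w with _ | ⟨e, w⟩
  · simp at hw
  rcases w with _ | ⟨f, z⟩
  · simp at hw
  obtain ⟨n, hn, h⟩ := all_leaves a b c d e f
  unfold okL at h
  have hz : z.length = 26 := by simpa using hw
  have hcz : z.count true = n := by
    have h1 : (a :: b :: c :: d :: e :: f :: z).count true =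
        List.count true [a, b, c, d, e, f] + z.count true := by
      have : a :: b :: c :: d :: e :: f :: z = [a, b, c, d, e, f] ++ z := rfl
      rw [this, List.count_append]
    omega
  exact leaf_check 6 26 n T0 (pre 6 true 32 9 T0) [a, b, c, d, e, f] z rfl hz hcz h

theorem Mv_iff (S : List Bool → Prop) (w : List Bool) :
    Pre true S w ↔ ∃ w', R464.MG.Mv w w' ∧ S w' := by
  rw [Pre_iff]
  constructor
  · rintro (⟨u, v, k, hw, hS, hk⟩ | ⟨u, v, k, hw, hS, hk⟩)
    · refine ⟨_, Or.inl ⟨u, v, k+1, by omega, hw, rfl, ?_⟩, hS⟩
      rcases hk with h | h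
      · exact Or.inl h
      · exact Or.inr (by omega)
    · refine ⟨_, Or.inr ⟨u, v, k+1, by omega, hw, rfl, ?_⟩, hS⟩
      rcases hk with (h | h) | h
      · simp at h
      · exact Or.inl h
      · exact Or.inr (by omega)
  · rintro ⟨w', ⟨u, v, k, h1, hw, hw', hk⟩ | ⟨u, v, k, h1, hw, hw', hk⟩, hS⟩
    · left
      obtain ⟨k, rfl⟩ : ∃ k', k = k' + 1 := ⟨k - 1, by omega⟩
      refine ⟨u, v, k, hw, by rw [← hw']; exact hS, ?_⟩
      rcases hk with h | h
      · exact Or.inl h
      · exact Or.inr (by omega)
    · right
      obtain ⟨k, rfl⟩ : ∃ k', k = k' + 1 := ⟨k - 1, by omega⟩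
      refine ⟨u, v, k, hw, by rw [← hw']; exact hS, ?_⟩
      rcases hk with h | h
      · exact Or.inl (Or.inr h)
      · exact Or.inr (by omega)

theorem one_bit : Nat.testBit ADDDDDD (rk (true :: true :: false :: true ::
    List.replicate 22 false)) = false := by decide +kernel

theorem not_onecell : ¬ mT 6 T0 R464.MG.onecell := by
  intro h
  have h1 : mN ADDDDDD (true :: true :: false :: true :: List.replicate 22 false) := h
  unfold mN at h1
  rw [one_bit] at h1
  simp at h1

/-- The computational half. -/
theorem stmtK : R464.MG.StmtK := by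
  refine ⟨mT 6 T0, ?_, not_onecell⟩
  rintro w ⟨hw, hc⟩
  have h1 := xor_main w hw hc
  rw [pre_spec 6 true 32 9 T0 w hw hc, Mv_iff] at h1
  constructor
  · intro hS w' hm hS'
    exact h1.1 ⟨w', hm, hS'⟩ hS
  · intro h
    by_contra hn
    obtain ⟨w', hm, hS'⟩ := h1.2 hn
    exact h w' hm hS'

end R125.Mono

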