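import Mathlib
import Pool.Agent.R125.Mono.Defs

/-! Ranks, bits and masks. -/

namespace R125.Mono

theorem lor_bit (a b i : ℕ) : (Nat.lor a b).testBit i = (a.testBit i || b.testBit i) :=
  Nat.testBit_or a b i

theorem land_bit (a b i : ℕ) : (Nat.land a b).testBit i = (a.testBit i && b.testBit i) :=
  Nat.testBit_and a b i

theorem shl_bit (a k i : ℕ) :
    (Nat.shiftLeft a k).testBit i = (decide (k ≤ i) && a.testBit (i - k)) := by
  have := Nat.testBit_shiftLeft (x := a) (i := k) (j := i)
  exact this

theorem shr_bit (a k i : ℕ) : (Nat.shiftRight a k).testBit i = a.testBit (k + i) :=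
  Nat.testBit_shiftRight a

theorem shl_bit_add (a k i : ℕ) : (Nat.shiftLeft a k).testBit (k + i) = a.testBit i := by
  rw [shl_bit]; simp

theorem shl_bit_lt (a k i : ℕ) (h : i < k) : (Nat.shiftLeft a k).testBit i = false := by
  rw [shl_bit]; simp; omega

theorem lt_bit {a k i : ℕ} (h : a < 2 ^ k) (hi : k ≤ i) : a.testBit i = false :=
  Nat.testBit_lt_two_pow (lt_of_lt_of_le h (Nat.pow_le_pow_right (by norm_num) hi))

theorem lor_lt {a b k : ℕ} (ha : a < 2 ^ k) (hb : b < 2 ^ k) : Nat.lor a b < 2 ^ k :=
  Nat.or_lt_two_pow ha hb

theorem shl_lt {a k m : ℕ} (ha : a < 2 ^ k) : Nat.shiftLeft a m < 2 ^ (m + k) := by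
  have : Nat.shiftLeft a m = a * 2 ^ m := Nat.shiftLeft_eq a m
  rw [this, pow_add, mul_comm]
  exact (Nat.mul_lt_mul_left (by positivity)).2 ha

theorem hd_succ (n c : ℕ) : hd n (c+1) = Nat.choose n c := rfl

theorem beq_false {a b : ℕ} (h : a ≠ b) : Nat.beq a b = false := by
  cases hb : Nat.beq a b with
  | false => rfl
  | true => exact absurd (Nat.eq_of_beq_eq_true hb) h

theorem beq_self' (a : ℕ) : Nat.beq a a = true := Nat.beq_refl a

theorem hd_add (n c : ℕ) : hd n c + Nat.choose n c = Nat.choose (n+1) c := by
  cases c with
  | zero => simp [hd]
  | succ c => simp [hd, Nat.choose_succ_succ]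

theorem rk_lt : ∀ w : List Bool, rk w < Nat.choose w.length (w.count true)
  | [] => by simp [rk]
  | true :: w => by
      have h := rk_lt w
      simp only [rk, List.length_cons, List.count_cons_self]
      rw [Nat.choose_succ_succ]; omega
  | false :: w => by
      have h := rk_lt w
      have e := hd_add w.length (w.count true)
      simp only [rk, List.length_cons]
      rw [List.count_cons_of_ne (by decide)]
      omega

theorem rk_swap (u v : List Bool) : rk (u ++ false :: true :: v) =
    rk (u ++ true :: false :: v) + Nat.choose v.length (v.count true) := by
  induction u with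
  | nil =>
    have e := hd_add v.length (v.count true)
    simp only [List.nil_append, rk, List.length_cons, List.count_cons_self, hd_succ]
    omega
  | cons a u ih =>
    cases a with
    | true => simpa [rk] using ih
    | false =>
      have h1 : (u ++ false :: true :: v).length = (u ++ true :: false :: v).length := by simp
      have h2 : (u ++ false :: true :: v).count true = (u ++ true :: false :: v).count true := by
        simp
      simp only [List.cons_append, rk, h1, h2]
      omega

theorem q_lt (l e : ℕ) : ∀ j c, q l e j c < 2 ^ (Nat.choose (l+2+j) c)
  | 0, c => by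
      unfold q
      by_cases h : c = e + 1
      · subst h
        have hb : Nat.beq (e+1) (e+1) = true := by simp
        rw [hb]
        simp only [cond_true]
        have e1 := hd_add l e
        have e2 : Nat.choose (l+2+0) (e+1) = Nat.choose (l+1) e + Nat.choose (l+1) (e+1) :=
          Nat.choose_succ_succ _ _
        have e3 : Nat.sub (Nat.shiftLeft 1 (Nat.choose l e)) 1 < 2 ^ (Nat.choose l e) := by
          have : Nat.shiftLeft 1 (Nat.choose l e) = 2 ^ (Nat.choose l e) := by
            have := Nat.shiftLeft_eq 1 (Nat.choose l e)
            simpa using this
          rw [this]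
          exact Nat.sub_lt (by positivity) (by norm_num)
        refine lt_of_lt_of_le (shl_lt e3) (Nat.pow_le_pow_right (by norm_num) ?_)
        omega
      · have hb : Nat.beq c (e+1) = false := beq_false h
        rw [hb]
        simp
  | j+1, 0 => by
      unfold q
      positivity
  | j+1, c+1 => by
      unfold q
      have h1 := q_lt l e j c
      have h2 := q_lt l e j (c+1)
      have e2 : Nat.choose (l+2+(j+1)) (c+1) = Nat.choose (l+2+j) c + Nat.choose (l+2+j) (c+1) :=
        Nat.choose_succ_succ _ _
      apply lor_lt
      · exact lt_of_lt_of_le h1 (Nat.pow_le_pow_right (by norm_num) (by omega))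
      · rw [e2]
        exact shl_lt h2

theorem q_zero (l e : ℕ) (j : ℕ) : q l e j 0 = 0 := by
  cases j with
  | zero =>
    unfold q
    have hb : Nat.beq 0 (e+1) = false := rfl
    rw [hb]; rfl
  | succ j => rfl

theorem ones_bit (N i : ℕ) :
    (Nat.sub (Nat.shiftLeft 1 N) 1).testBit i = decide (i < N) := by
  have h1 : Nat.shiftLeft 1 N = 2 ^ N := by
    have := Nat.shiftLeft_eq 1 N
    simpa using this
  rw [h1]
  exact Nat.testBit_two_pow_sub_one N i

theorem count_ft (w : List Bool) : (false :: w).count true = w.count true :=
  List.count_cons_of_ne (by decide)

theorem count_tt (w : List Bool) : (true :: w).count true = w.count true + 1 :=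
  List.count_cons_self

theorem q_bit (l e : ℕ) : ∀ (u : List Bool) (a b : Bool) (v : List Bool), v.length = l →
    (q l e u.length ((u ++ a :: b :: v).count true)).testBit (rk (u ++ a :: b :: v)) =
      (a && !b && decide (v.count true = e))
  | [], a, b, v, hv => by
      have hr := rk_lt v
      rw [hv] at hr
      have e1 := hd_add l e
      simp only [List.nil_append, List.length_nil]
      unfold q
      by_cases hc : (a :: b :: v).count true = e + 1
      · have hb : Nat.beq ((a :: b :: v).count true) (e+1) = true := by
          rw [hc]; simp
        rw [hb]
        simp only [cond_true]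
        cases a <;> cases b
        · -- R R
          rw [count_ft, count_ft] at hc
          simp only [rk, count_ft, List.length_cons, hc, hv, hd_succ]
          rw [shl_bit, ones_bit]
          simp
          omega
        · rw [count_ft, count_tt] at hc
          have hc' : v.count true = e := by omega
          simp only [rk, count_tt, List.length_cons, hc', hv, hd_succ]
          rw [shl_bit, ones_bit]
          simp
          omega
        · rw [count_tt, count_ft] at hc
          have hc' : v.count true = e := by omega
          rw [hc'] at hr
          simp only [rk, hc', hv]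
          rw [shl_bit_add, ones_bit]
          simp [hr]
        · rw [count_tt, count_tt] at hc
          have hc' : v.count true + 1 = e := by omega
          subst hc'
          simp only [rk, hd_succ]
          rw [shl_bit_lt _ _ _ hr]
          simp
      · have hb : Nat.beq ((a :: b :: v).count true) (e+1) = false := beq_false hc
        rw [hb]
        simp only [cond_false, Nat.zero_testBit]
        cases a <;> cases b <;> simp_all
  | true :: u, a, b, v, hv => by
      have ih := q_bit l e u a b v hv
      have hr := rk_lt (u ++ a :: b :: v)
      have hlen : (u ++ a :: b :: v).length = l + 2 + u.length := by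
        simp [hv]; omega
      rw [hlen] at hr
      rw [List.cons_append, count_tt, List.length_cons]
      simp only [rk]
      unfold q
      rw [lor_bit, shl_bit_lt _ _ _ hr, ih]
      simp
  | false :: u, a, b, v, hv => by
      have ih := q_bit l e u a b v hv
      have hlen : (u ++ a :: b :: v).length = l + 2 + u.length := by
        simp [hv]; omega
      rw [List.cons_append, count_ft, List.length_cons]
      simp only [rk]
      rw [← ih, hlen]
      cases hc : (u ++ a :: b :: v).count true with
      | zero => rw [q_zero, q_zero]; simp
      | succ c =>
        have hl := q_lt l e u.length c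
        conv_lhs => unfold q
        simp only [hd_succ]
        rw [lor_bit, lt_bit hl (by omega), shl_bit_add]
        simp

end R125.Mono
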