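import Mathlib
import Pool.Agent.R125.Mono.P1

/-! Semantics of the moves and correctness of the computation on a leaf. -/

namespace R125.Mono

/-- Jumps of a D in front of the word, in terms of the words following R in the target set. -/
def J1 : (List Bool → Prop) → List Bool → Prop
  | _, [] => False
  | _, true :: _ => False
  | T, false :: v => T (true :: v) ∨ (true ∈ v ∧ J1 (fun x => T (false :: x)) v)

/-- Jumps of an R over D's, the first of which is in front of the word. -/
def J2 (ok : Prop) : (List Bool → Prop) → List Bool → Prop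
  | _, [] => False
  | T, false :: v => T (true :: v)
  | T, true :: v => ok ∧ J2 ok (fun x => T (true :: x)) v

/-- The words having a move into `S`. -/
def Pre : Bool → (List Bool → Prop) → List Bool → Prop
  | _, _, [] => False
  | fl, S, true :: z => Pre fl (fun x => S (true :: x)) z ∨
      J1 (fun x => S (false :: x)) z ∨ J2 (fl = false) (fun x => S (false :: x)) z
  | _, S, false :: z => Pre false (fun x => S (false :: x)) z

theorem J1_iff (T : List Bool → Prop) (z : List Bool) : J1 T z ↔
    ∃ k v, z = List.replicate (k+1) false ++ v ∧ T (List.replicate k false ++ true :: v) ∧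
      (true ∈ v ∨ k = 0) := by
  induction z generalizing T with
  | nil => simp [J1, List.replicate_succ]
  | cons a z ih =>
    cases a with
    | true => simp [J1, List.replicate_succ]
    | false =>
      unfold J1
      rw [ih]
      constructor
      · rintro (h | ⟨h1, k, v, hz, hT, hk⟩)
        · exact ⟨0, z, by simp [List.replicate_succ], by simpa using h, Or.inr rfl⟩
        · refine ⟨k+1, v, ?_, ?_, Or.inl ?_⟩
          · rw [hz]; simp [List.replicate_succ]
          · simpa [List.replicate_succ] using hT
          · rw [hz] at h1; simpa using h1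
      · rintro ⟨k, v, hz, hT, hk⟩
        cases k with
        | zero =>
          left
          simp [List.replicate_succ] at hz
          rw [hz]; simpa using hT
        | succ k =>
          right
          have hv : true ∈ v := by simpa using hk
          simp only [List.replicate_succ, List.cons_append, List.cons.injEq, true_and] at hz
          refine ⟨by rw [hz]; simp [hv], k, v, ?_, ?_, Or.inl hv⟩
          · rw [hz]; simp [List.replicate_succ]
          · simpa [List.replicate_succ] using hT

theorem J2_iff (ok : Prop) (T : List Bool → Prop) (z : List Bool) : J2 ok T z ↔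
    ∃ k v, z = List.replicate k true ++ false :: v ∧ T (List.replicate (k+1) true ++ v) ∧
      (ok ∨ k = 0) := by
  induction z generalizing T with
  | nil => simp [J2]
  | cons a z ih =>
    cases a with
    | false =>
      unfold J2
      constructor
      · intro h
        exact ⟨0, z, by simp, by simpa [List.replicate_succ] using h, Or.inr rfl⟩
      · rintro ⟨k, v, hz, hT, hk⟩
        cases k with
        | zero =>
          simp at hz
          rw [hz]; simpa [List.replicate_succ] using hT
        | succ k => simp [List.replicate_succ] at hz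
    | true =>
      unfold J2
      rw [ih]
      constructor
      · rintro ⟨hok, k, v, hz, hT, hk⟩
        refine ⟨k+1, v, ?_, ?_, Or.inl hok⟩
        · rw [hz]; simp [List.replicate_succ]
        · simpa [List.replicate_succ] using hT
      · rintro ⟨k, v, hz, hT, hk⟩
        cases k with
        | zero => simp at hz
        | succ k =>
          have hok : ok := by simpa using hk
          simp only [List.replicate_succ, List.cons_append, List.cons.injEq, true_and] at hz
          refine ⟨hok, k, v, hz, ?_, Or.inl hok⟩
          simpa [List.replicate_succ] using hT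

/-- D-jumps into `S`. -/
def PDx (S : List Bool → Prop) (w : List Bool) : Prop :=
  ∃ u v k, w = u ++ true :: (List.replicate (k+1) false ++ v) ∧
    S (u ++ (List.replicate (k+1) false ++ true :: v)) ∧ (true ∈ v ∨ k = 0)

/-- R-jumps into `S`. -/
def PRx (fl : Bool) (S : List Bool → Prop) (w : List Bool) : Prop :=
  ∃ u v k, w = u ++ (List.replicate (k+1) true ++ false :: v) ∧
    S (u ++ false :: (List.replicate (k+1) true ++ v)) ∧ ((fl = false ∨ false ∈ u) ∨ k = 0)

theorem PDx_cons (S : List Bool → Prop) (a : Bool) (z : List Bool) : PDx S (a :: z) ↔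
    (PDx (fun x => S (a :: x)) z ∨ (a = true ∧ J1 (fun x => S (false :: x)) z)) := by
  rw [J1_iff]
  constructor
  · rintro ⟨u, v, k, hw, hS, hk⟩
    cases u with
    | nil =>
      right
      simp only [List.nil_append, List.cons.injEq] at hw
      refine ⟨hw.1, k, v, hw.2, ?_, hk⟩
      simpa [List.replicate_succ] using hS
    | cons b u =>
      left
      simp only [List.cons_append, List.cons.injEq] at hw
      rw [← hw.1] at hS
      exact ⟨u, v, k, hw.2, hS, hk⟩
  · rintro (⟨u, v, k, hw, hS, hk⟩ | ⟨ha, k, v, hz, hT, hk⟩)
    · exact ⟨a :: u, v, k, by rw [hw]; rfl, hS, hk⟩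
    · refine ⟨[], v, k, by rw [ha, hz]; rfl, ?_, hk⟩
      simpa [List.replicate_succ] using hT

theorem PRx_cons (fl : Bool) (S : List Bool → Prop) (a : Bool) (z : List Bool) :
    PRx fl S (a :: z) ↔
    (PRx (fl && a) (fun x => S (a :: x)) z ∨
      (a = true ∧ J2 (fl = false) (fun x => S (false :: x)) z) ∨
      (a = false ∧ False)) := by
  rw [J2_iff]
  constructor
  · rintro ⟨u, v, k, hw, hS, hk⟩
    cases u with
    | nil =>
      right; left
      simp only [List.nil_append, List.replicate_succ, List.cons_append, List.cons.injEq] at hw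
      refine ⟨hw.1, k, v, hw.2, ?_, ?_⟩
      · simpa [List.replicate_succ] using hS
      · simpa using hk
    | cons b u =>
      left
      simp only [List.cons_append, List.cons.injEq] at hw
      rw [← hw.1] at hS hk
      refine ⟨u, v, k, hw.2, hS, ?_⟩
      cases a <;> simp_all
  · rintro (⟨u, v, k, hw, hS, hk⟩ | ⟨ha, k, v, hz, hT, hk⟩ | ⟨_, h⟩)
    · refine ⟨a :: u, v, k, by rw [hw]; rfl, hS, ?_⟩
      cases a <;> simp_all
    · refine ⟨[], v, k, by rw [ha, hz]; simp [List.replicate_succ], ?_, ?_⟩
      · simpa [List.replicate_succ] using hT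
      · simpa using hk
    · exact h.elim

theorem Pre_iff (fl : Bool) (S : List Bool → Prop) (w : List Bool) :
    Pre fl S w ↔ (PDx S w ∨ PRx fl S w) := by
  induction w generalizing fl S with
  | nil =>
    simp only [Pre, false_iff, not_or]
    constructor
    · rintro ⟨u, v, k, hw, -⟩; simp at hw
    · rintro ⟨u, v, k, hw, -⟩; simp at hw
  | cons a z ih =>
    rw [PDx_cons, PRx_cons]
    cases a with
    | true => simp only [Pre, ih, Bool.and_true]; tauto
    | false => simp only [Pre, ih, Bool.and_false]; simp

/-- D-jumps beginning `l` letters before the end. -/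
def PD (S : List Bool → Prop) (l : ℕ) (w : List Bool) : Prop :=
  ∃ u v, w = u ++ true :: false :: v ∧ v.length = l ∧
    J1 (fun x => S (u ++ false :: x)) (false :: v)

/-- R-jumps ending `l` letters before the end. -/
def PR (fl : Bool) (S : List Bool → Prop) (l : ℕ) (w : List Bool) : Prop :=
  ∃ u v, w = u ++ true :: false :: v ∧ v.length = l ∧
    ∃ k u', u = u' ++ List.replicate k true ∧
      S (u' ++ false :: (List.replicate (k+1) true ++ v)) ∧ ((fl = false ∨ false ∈ u') ∨ k = 0)

theorem PDx_iff (S : List Bool → Prop) (w : List Bool) :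
    PDx S w ↔ ∃ l, l < w.length - 1 ∧ PD S l w := by
  constructor
  · rintro ⟨u, v, k, hw, hS, hk⟩
    refine ⟨k + v.length, ?_, u, List.replicate k false ++ v, ?_, by simp, ?_⟩
    · rw [hw]; simp; omega
    · rw [hw]; simp [List.replicate_succ]
    · rw [J1_iff]
      refine ⟨k, v, by simp [List.replicate_succ], ?_, hk⟩
      simpa [List.replicate_succ] using hS
  · rintro ⟨l, -, u, v, hw, -, hJ⟩
    rw [J1_iff] at hJ
    obtain ⟨k, v', hz, hT, hk⟩ := hJ
    refine ⟨u, v', k, by rw [hw, hz], ?_, hk⟩
    simpa [List.replicate_succ] using hT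

theorem PRx_iff (fl : Bool) (S : List Bool → Prop) (w : List Bool) :
    PRx fl S w ↔ ∃ l, l < w.length - 1 ∧ PR fl S l w := by
  constructor
  · rintro ⟨u, v, k, hw, hS, hk⟩
    refine ⟨v.length, ?_, u ++ List.replicate k true, v, ?_, rfl, k, u, rfl, hS, hk⟩
    · rw [hw]; simp; omega
    · rw [hw, List.replicate_succ']; simp
  · rintro ⟨l, -, u, v, hw, -, k, u', hu, hS, hk⟩
    refine ⟨u', v, k, ?_, hS, hk⟩
    rw [hw, hu, List.replicate_succ']; simp

theorem split_unique {u u1 v v1 : List Bool} {a b a1 b1 : Bool}
    (h : u ++ a :: b :: v = u1 ++ a1 :: b1 :: v1) (hl : v.length = v1.length) :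
    u = u1 ∧ a = a1 ∧ b = b1 ∧ v = v1 := by
  have := List.append_inj' h (by simp [hl])
  obtain ⟨h1, h2⟩ := this
  simp only [List.cons.injEq] at h2
  exact ⟨h1, h2.1, h2.2.1, h2.2.2⟩

theorem PD_succ (S : List Bool → Prop) (l : ℕ) (u v : List Bool) (hv : v.length = l + 1) :
    PD S (l+1) (u ++ true :: false :: v) ↔
      (S (u ++ false :: true :: v) ∨ (true ∈ v ∧ PD S l (u ++ false :: true :: v))) := by
  constructor
  · rintro ⟨u1, v1, hw, hv1, hJ⟩
    obtain ⟨rfl, -, -, rfl⟩ := split_unique hw (by omega)
    unfold J1 at hJ
    rcases hJ with h | ⟨h1, h2⟩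
    · exact Or.inl h
    · right
      refine ⟨h1, ?_⟩
      cases v with
      | nil => simp at hv
      | cons b v =>
        cases b with
        | true => exact absurd h2 (by simp [J1])
        | false =>
          refine ⟨u ++ [false], v, by simp, by simpa using hv, ?_⟩
          simpa using h2
  · intro h
    refine ⟨u, v, rfl, hv, ?_⟩
    unfold J1
    rcases h with h | ⟨h1, u1, v1, hw, hv1, hJ⟩
    · exact Or.inl h
    · right
      refine ⟨h1, ?_⟩
      have h2 : (u ++ [false]) ++ true :: v = u1 ++ true :: false :: v1 := by
        rw [← hw]; simp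
      have h3 := List.append_inj' h2 (by simp [hv, hv1])
      obtain ⟨h4, h5⟩ := h3
      simp only [List.cons.injEq, true_and] at h5
      rw [h5]
      rw [← h4] at hJ
      simpa using hJ

theorem PD_zero (S : List Bool → Prop) (u : List Bool) :
    PD S 0 (u ++ true :: false :: []) ↔ S (u ++ false :: true :: []) := by
  constructor
  · rintro ⟨u1, v1, hw, hv1, hJ⟩
    obtain ⟨rfl, -, -, rfl⟩ := split_unique hw (by simp [hv1])
    simpa [J1] using hJ
  · intro h
    exact ⟨u, [], rfl, rfl, by simp [J1, h]⟩

theorem PR_step (fl : Bool) (S : List Bool → Prop) (l : ℕ) (u v : List Bool)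
    (hv : v.length = l) :
    PR fl S l (u ++ true :: false :: v) ↔
      (S (u ++ false :: true :: v) ∨
        ((fl = false ∨ false ∈ u) ∧ PR fl S (l+1) (u ++ false :: true :: v))) := by
  constructor
  · rintro ⟨u1, v1, hw, hv1, k, u', hu, hS, hk⟩
    obtain ⟨rfl, -, -, rfl⟩ := split_unique hw (by omega)
    cases k with
    | zero =>
      left
      rw [hu]; simpa using hS
    | succ k =>
      right
      have hk' : fl = false ∨ false ∈ u' := by simpa using hk
      refine ⟨?_, u' ++ List.replicate k true, true :: v, ?_, by simp [hv], k, u', rfl, ?_,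
        Or.inl hk'⟩
      · rcases hk' with h | h
        · exact Or.inl h
        · right; rw [hu]; simp [h]
      · rw [hu, List.replicate_succ']; simp
      · rw [List.replicate_succ'] at hS
        simpa using hS
  · rintro (h | ⟨hok, u1, v1, hw, hv1, k, u', hu, hS, hk⟩)
    · exact ⟨u, v, rfl, hv, 0, u, by simp, by simpa using h, Or.inr rfl⟩
    · have h2 : u ++ false :: true :: v = (u1 ++ [true]) ++ false :: v1 := by
        rw [hw]; simp
      have h3 := List.append_inj' h2 (by simp [hv, hv1])
      obtain ⟨h4, h5⟩ := h3
      simp only [List.cons.injEq, true_and] at h5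
      refine ⟨u, v, rfl, hv, k+1, u', ?_, ?_, Or.inl ?_⟩
      · rw [h4, hu, List.replicate_succ']; simp
      · rw [← h5] at hS
        rw [List.replicate_succ']
        simpa using hS
      · rcases hok with h | h
        · exact Or.inl h
        · right
          rw [h4, hu] at h
          simpa using h

end R125.Mono
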