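import Mathlib
import Pool.Agent.R125.Mono.P2

/-! Correctness of the loops. -/

namespace R125.Mono

/-- The set coded by a number. -/
def mN (A : ℕ) (w : List Bool) : Prop := A.testBit (rk w) = true

theorem st_bit (g : ℕ → ℕ) (l : ℕ) (u : List Bool) (a b : Bool) (v : List Bool)
    (hv : v.length = l) (E : ℕ) :
    (st g l u.length ((u ++ a :: b :: v).count true) E).testBit (rk (u ++ a :: b :: v)) =
      (a && !b && decide (v.count true < E) &&
        (g (v.count true)).testBit (rk (u ++ a :: b :: v) + Nat.choose l (v.count true))) := by
  induction E with
  | zero => simp [st]
  | succ E ih =>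
    unfold st
    rw [lor_bit, land_bit, shr_bit, ih, q_bit l E u a b v hv]
    by_cases h : v.count true = E
    · subst h
      cases a <;> cases b <;> simp [Nat.add_comm]
    · have h1 : (v.count true < E + 1) ↔ (v.count true < E) := by omega
      simp [h, h1]

theorem exists_split (w : List Bool) (l : ℕ) (h : l < w.length - 1) :
    ∃ u a b v, w = u ++ a :: b :: v ∧ v.length = l ∧ u.length = w.length - 2 - l := by
  have h1 : w = w.take (w.length - 2 - l) ++ w.drop (w.length - 2 - l) :=
    (List.take_append_drop _ _).symm
  have h2 : (w.drop (w.length - 2 - l)).length = l + 2 := by simp; omega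
  cases hd' : w.drop (w.length - 2 - l) with
  | nil => rw [hd'] at h2; simp at h2
  | cons a t =>
    cases t with
    | nil => rw [hd'] at h2; simp at h2
    | cons b v =>
      rw [hd'] at h1 h2
      exact ⟨_, a, b, v, h1, by simpa using h2, by simp; omega⟩

theorem count_swap (u v : List Bool) : (u ++ false :: true :: v).count true =
    (u ++ true :: false :: v).count true := by simp

theorem st_swap (g : ℕ → ℕ) (n c l : ℕ) (u : List Bool) (a b : Bool) (v : List Bool)
    (hv : v.length = l) (hn : u.length = n - 2 - l) (hc : (u ++ a :: b :: v).count true = c) :
    (st g l (n-2-l) c c).testBit (rk (u ++ a :: b :: v)) = true ↔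
      (a = true ∧ b = false ∧ mN (g (v.count true)) (u ++ false :: true :: v)) := by
  have h := st_bit g l u a b v hv c
  rw [hn, hc] at h
  rw [h]
  cases a <;> cases b <;> simp
  have hlt : v.count true < c := by
    rw [← hc]; simp; omega
  simp only [hlt, true_and]
  unfold mN
  rw [rk_swap, hv]

theorem dGo_spec (n c A : ℕ) : ∀ k, k ≤ n - 1 → ∀ w : List Bool, w.length = n →
    w.count true = c →
    ((∀ k', k = k' + 1 → (mN (dGo n c A k).1 w ↔ PD (mN A) k' w)) ∧
      (mN (dGo n c A k).2 w ↔ ∃ l, l < k ∧ PD (mN A) l w)) := by
  intro k
  induction k with
  | zero =>
    intro _ w _ _
    refine ⟨fun k' h => by omega, ?_⟩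
    simp [dGo, mN]
  | succ k ih =>
    intro hk w hw hc
    have key : mN (st (gD A (dGo n c A k).1) k (n-2-k) c c) w ↔ PD (mN A) k w := by
      obtain ⟨u, a, b, v, hs, hv, hu⟩ := exists_split w k (by omega)
      rw [hw] at hu
      rw [hs]
      rw [hs] at hc
      unfold mN at *
      rw [st_swap _ n c k u a b v hv hu hc]
      cases a with
      | false =>
        constructor
        · rintro ⟨h, -⟩; simp at h
        · rintro ⟨u1, v1, hw1, hv1, -⟩
          obtain ⟨-, h, -, -⟩ := split_unique hw1 (by omega)
          simp at h
      | true =>
        cases b with
        | true =>
          constructor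
          · rintro ⟨-, h, -⟩; simp at h
          · rintro ⟨u1, v1, hw1, hv1, -⟩
            obtain ⟨-, -, h, -⟩ := split_unique hw1 (by omega)
            simp at h
        | false =>
          simp only [true_and]
          cases k with
          | zero =>
            have hv0 : v = [] := List.length_eq_zero_iff.mp hv
            subst hv0
            rw [PD_zero]
            have : gD A (dGo n c A 0).1 (List.count true ([] : List Bool)) = A := by
              simp [gD]
            rw [this]
            rfl
          | succ k =>
            rw [PD_succ _ _ _ _ hv]
            have hw' : (u ++ false :: true :: v).length = n := by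
              rw [← hw, hs]; simp
            have hc' : (u ++ false :: true :: v).count true = c := by
              rw [← hc]; simp
            have ihk := (ih (by omega) _ hw' hc').1 k rfl
            by_cases h0 : v.count true = 0
            · have hnt : true ∉ v := List.count_eq_zero.mp h0
              have : gD A (dGo n c A (k+1)).1 (v.count true) = A := by
                rw [h0]; rfl
              rw [this]
              simp [hnt, mN]
            · have ht : true ∈ v := by
                by_contra hcon
                exact h0 (List.count_eq_zero.mpr hcon)
              have : gD A (dGo n c A (k+1)).1 (v.count true) =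
                  Nat.lor A (dGo n c A (k+1)).1 := by
                unfold gD
                rw [beq_false h0]
                rfl
              rw [this]
              simp only [ht, true_and]
              rw [← ihk]
              unfold mN
              rw [lor_bit]
              simp
    constructor
    · intro k' hk'
      have : k' = k := by omega
      subst this
      exact key
    · have e : (dGo n c A (k+1)).2 = Nat.lor (dGo n c A k).2
          (st (gD A (dGo n c A k).1) k (n-2-k) c c) := rfl
      have ih2 := (ih (by omega) w hw hc).2
      rw [e]
      unfold mN at *
      rw [lor_bit, Bool.or_eq_true, ih2, key]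
      constructor
      · rintro (⟨l, hl, h⟩ | h)
        · exact ⟨l, by omega, h⟩
        · exact ⟨k, by omega, h⟩
      · rintro ⟨l, hl, h⟩
        rcases Nat.lt_or_ge l k with h1 | h1
        · exact Or.inl ⟨l, h1, h⟩
        · have : l = k := by omega
          subst this
          exact Or.inr h

theorem rGo_spec (fl : Bool) (n c A : ℕ) : ∀ m, m ≤ n - 1 → ∀ U tot : ℕ,
    (∀ w : List Bool, w.length = n → w.count true = c → (mN U w ↔ PR fl (mN A) m w)) →
    ∀ w : List Bool, w.length = n → w.count true = c →
    (mN (rGo fl n c A m U tot) w ↔ (mN tot w ∨ ∃ l, l < m ∧ PR fl (mN A) l w)) := by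
  intro m
  induction m with
  | zero =>
    intro _ U tot _ w _ _
    simp [rGo]
  | succ l ih =>
    intro hk U tot hU w hw hc
    have key : ∀ w : List Bool, w.length = n → w.count true = c →
        (mN (st (gR fl (n-2-l) c A U) l (n-2-l) c c) w ↔ PR fl (mN A) l w) := by
      intro w hw hc
      obtain ⟨u, a, b, v, hs, hv, hu⟩ := exists_split w l (by omega)
      rw [hw] at hu
      rw [hs]
      rw [hs] at hc
      unfold mN at *
      rw [st_swap _ n c l u a b v hv hu hc]
      cases a with
      | false =>
        constructor
        · rintro ⟨h, -⟩; simp at h
        · rintro ⟨u1, v1, hw1, hv1, -⟩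
          obtain ⟨-, h, -, -⟩ := split_unique hw1 (by omega)
          simp at h
      | true =>
        cases b with
        | true =>
          constructor
          · rintro ⟨-, h, -⟩; simp at h
          · rintro ⟨u1, v1, hw1, hv1, -⟩
            obtain ⟨-, -, h, -⟩ := split_unique hw1 (by omega)
            simp at h
        | false =>
          simp only [true_and]
          rw [PR_step fl _ l u v hv]
          have hw' : (u ++ false :: true :: v).length = n := by
            rw [← hw, hs]; simp
          have hc' : (u ++ false :: true :: v).count true = c := by
            rw [← hc]; simp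
          have hU' := hU _ hw' hc'
          have hcu : c - 1 - v.count true = u.count true := by
            rw [← hc]; simp
          by_cases hf : fl = true ∧ false ∉ u
          · have hall : u.count true = u.length := by
              rw [List.count_eq_length]
              intro b hb
              cases b with
              | true => rfl
              | false => exact absurd hb hf.2
            have : gR fl (n-2-l) c A U (v.count true) = A := by
              unfold gR
              rw [hcu, hall, hu, hf.1, beq_self']
              rfl
            rw [this]
            have hn : ¬ (fl = false ∨ false ∈ u) := by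
              rintro (h | h)
              · rw [hf.1] at h; simp at h
              · exact hf.2 h
            simp [hn, mN]
          · have hok : fl = false ∨ false ∈ u := by
              by_contra hcon
              rw [not_or] at hcon
              exact hf ⟨by simpa using hcon.1, hcon.2⟩
            have : gR fl (n-2-l) c A U (v.count true) = Nat.lor A U := by
              unfold gR
              rcases hok with h | h
              · rw [h]; rfl
              · have hne : c - 1 - v.count true ≠ n - 2 - l := by
                  rw [hcu, ← hu]
                  intro heq
                  rw [List.count_eq_length] at heq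
                  have := heq false h
                  simp at this
                rw [beq_false hne]
                simp
            rw [this]
            simp only [hok, true_and]
            rw [← hU']
            unfold mN
            rw [lor_bit]
            simp
    have e : rGo fl n c A (l+1) U tot = rGo fl n c A l (st (gR fl (n-2-l) c A U) l (n-2-l) c c)
        (Nat.lor tot (st (gR fl (n-2-l) c A U) l (n-2-l) c c)) := rfl
    rw [e, ih (by omega) _ _ key w hw hc]
    have hk' := key w hw hc
    have e2 : mN (Nat.lor tot (st (gR fl (n-2-l) c A U) l (n-2-l) c c)) w ↔
        (mN tot w ∨ PR fl (mN A) l w) := by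
      rw [← hk']
      unfold mN
      rw [lor_bit]
      simp
    rw [e2]
    constructor
    · rintro ((h | h) | ⟨l', hl, h⟩)
      · exact Or.inl h
      · exact Or.inr ⟨l, by omega, h⟩
      · exact Or.inr ⟨l', by omega, h⟩
    · rintro (h | ⟨l', hl, h⟩)
      · exact Or.inl (Or.inl h)
      · rcases Nat.lt_or_ge l' l with h1 | h1
        · exact Or.inr ⟨l', h1, h⟩
        · have : l' = l := by omega
          subst this
          exact Or.inl (Or.inr h)

theorem leafPre_spec (fl : Bool) (n c A : ℕ) (w : List Bool) (hw : w.length = n)
    (hc : w.count true = c) : mN (leafPre fl n c A) w ↔ Pre fl (mN A) w := by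
  have h1 := (dGo_spec n c A (n-1) le_rfl w hw hc).2
  have h2 := rGo_spec fl n c A (n-1) le_rfl 0 0 (by
    intro w hw hc
    have : ¬ mN 0 w := by simp [mN]
    simp only [this, false_iff]
    rintro ⟨u, v, hs, hv, -⟩
    rw [hs] at hw
    simp at hw
    omega) w hw hc
  have h3 : ¬ mN 0 w := by simp [mN]
  simp only [h3, false_or] at h2
  have e : mN (leafPre fl n c A) w ↔ (mN (dGo n c A (n-1)).2 w ∨
      mN (rGo fl n c A (n-1) 0 0) w) := by
    unfold mN leafPre
    rw [lor_bit]
    simp
  rw [e, h1, h2, Pre_iff, PDx_iff, PRx_iff, hw]

end R125.Mono
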