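import Mathlib
import Pool.Agent.R125.Mono.P3

/-! Correctness of the computation for split sets. -/

namespace R125.Mono

theorem mod_bit (T k i : ℕ) : (Nat.mod T (Nat.pow 2 k)).testBit i =
    (decide (i < k) && T.testBit i) := Nat.testBit_mod_two_pow T k i

theorem mod_lt' (T k : ℕ) : Nat.mod T (Nat.pow 2 k) < 2 ^ k :=
  Nat.mod_lt T (Nat.pow_pos (by norm_num : 0 < 2))

theorem J1_congr {T T' : List Bool → Prop} {z : List Bool}
    (h : ∀ x : List Bool, x.length = z.length → x.count true = z.count true + 1 →
      (T x ↔ T' x)) : J1 T z ↔ J1 T' z := by
  induction z generalizing T T' with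
  | nil => simp [J1]
  | cons a z ih =>
    cases a with
    | true => simp [J1]
    | false =>
      unfold J1
      rw [h (true :: z) (by simp) (by simp)]
      have := @ih (fun x => T (false :: x)) (fun x => T' (false :: x)) (by
        intro x hx hc
        exact h _ (by simp [hx]) (by simp [hc]))
      rw [this]

theorem J2_congr {ok : Prop} {T T' : List Bool → Prop} {z : List Bool}
    (h : ∀ x : List Bool, x.length = z.length → x.count true = z.count true + 1 →
      (T x ↔ T' x)) : J2 ok T z ↔ J2 ok T' z := by
  induction z generalizing T T' with
  | nil => simp [J2]
  | cons a z ih =>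
    cases a with
    | false =>
      unfold J2
      rw [h (true :: z) (by simp) (by simp)]
    | true =>
      unfold J2
      have := @ih (fun x => T (true :: x)) (fun x => T' (true :: x)) (by
        intro x hx hc
        exact h _ (by simp [hx]) (by simp [hc]))
      rw [this]

theorem f1N_spec (n : ℕ) : ∀ (c T : ℕ) (z : List Bool), z.length = n → z.count true = c →
    (mN (f1N n c T) z ↔ J1 (mN T) z) := by
  induction n with
  | zero =>
    intro c T z hz _
    have : z = [] := List.length_eq_zero_iff.mp hz
    subst this
    simp [f1N, mN, J1]
  | succ n ih =>
    intro c T z hz hc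
    cases z with
    | nil => simp at hz
    | cons a z =>
      have hz' : z.length = n := by simpa using hz
      have hr := rk_lt z
      rw [hz'] at hr
      cases a with
      | true =>
        rw [count_tt] at hc
        simp only [J1, iff_false]
        unfold mN f1N
        rw [← hc, hd_succ]
        simp only [rk]
        rw [shl_bit_lt _ _ _ hr]
        simp
      | false =>
        rw [count_ft] at hc
        rw [hc] at hr
        have e1 : mN (f1N (n+1) c T) (false :: z) ↔
            (mN T (true :: z) ∨ (c ≠ 0 ∧ mN (f1N n c (Nat.shiftRight T (Nat.choose n c))) z)) := by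
          unfold mN
          conv_lhs => unfold f1N
          simp only [rk]
          rw [hz', hc, shl_bit_add, lor_bit, mod_bit]
          by_cases h0 : c = 0
          · subst h0
            simp at hr
            simp [hr]
          · rw [beq_false h0]
            simp [hr, h0]
        rw [e1]
        unfold J1
        have e2 : c ≠ 0 ↔ true ∈ z := by
          rw [← hc]
          rw [Ne, List.count_eq_zero]
          simp
        rw [e2, ih _ _ z hz' hc]
        have e3 : J1 (mN (Nat.shiftRight T (Nat.choose n c))) z ↔
            J1 (fun x => mN T (false :: x)) z := by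
          apply J1_congr
          intro x hx hxc
          unfold mN
          simp only [rk]
          rw [shr_bit, hx, hz', hxc, hc, hd_succ]
        rw [e3]

theorem f2N_lt (ok : Bool) (n : ℕ) : ∀ (c T : ℕ), f2N ok n c T < 2 ^ (Nat.choose n c) := by
  induction n with
  | zero => intro c T; simp [f2N]
  | succ n ih =>
    intro c T
    cases c with
    | zero =>
      unfold f2N
      have := mod_lt' T (Nat.choose n 0)
      simpa using this
    | succ c =>
      unfold f2N
      have h1 := mod_lt' T (Nat.choose n (c+1))
      have e : Nat.choose (n+1) (c+1) = Nat.choose n c + Nat.choose n (c+1) :=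
        Nat.choose_succ_succ _ _
      apply lor_lt
      · cases ok with
        | false => simp
        | true =>
          exact lt_of_lt_of_le (ih c _) (Nat.pow_le_pow_right (by norm_num) (by omega))
      · rw [e]
        exact shl_lt h1

theorem f2N_spec (ok : Bool) (n : ℕ) : ∀ (c T : ℕ) (z : List Bool), z.length = n →
    z.count true = c → (mN (f2N ok n c T) z ↔ J2 (ok = true) (mN T) z) := by
  induction n with
  | zero =>
    intro c T z hz _
    have : z = [] := List.length_eq_zero_iff.mp hz
    subst this
    simp [f2N, mN, J2]
  | succ n ih =>
    intro c T z hz hc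
    cases z with
    | nil => simp at hz
    | cons a z =>
      have hz' : z.length = n := by simpa using hz
      have hr := rk_lt z
      rw [hz'] at hr
      cases c with
      | zero =>
        cases a with
        | true => rw [count_tt] at hc; omega
        | false =>
          rw [count_ft] at hc
          rw [hc] at hr
          unfold mN f2N J2
          simp only [rk]
          rw [hc, mod_bit]
          simp only [hd, Nat.zero_add, hr, decide_true, Bool.true_and]
      | succ c =>
        have hl := f2N_lt ok n c (Nat.mod T (Nat.pow 2 (Nat.choose n (c+1))))
        cases a with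
        | false =>
          rw [count_ft] at hc
          rw [hc] at hr
          unfold J2
          unfold mN
          conv_lhs => unfold f2N
          simp only [rk]
          rw [hz', hc, hd_succ, lor_bit, shl_bit_add, mod_bit]
          have h2 : (bif ok then f2N ok n c (Nat.mod T (Nat.pow 2 (Nat.choose n (c+1))))
              else 0).testBit (Nat.choose n c + rk z) = false := by
            cases ok with
            | false => simp
            | true => exact lt_bit hl (by omega)
          rw [h2]
          simp only [hr, decide_true, Bool.true_and, Bool.false_or]
        | true =>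
          rw [count_tt] at hc
          have hc' : z.count true = c := by omega
          rw [hc'] at hr
          unfold J2
          have e1 : mN (f2N ok (n+1) (c+1) T) (true :: z) ↔
              (ok = true ∧ mN (f2N ok n c (Nat.mod T (Nat.pow 2 (Nat.choose n (c+1))))) z) := by
            unfold mN
            conv_lhs => unfold f2N
            simp only [rk]
            rw [lor_bit, shl_bit_lt _ _ _ hr]
            cases ok <;> simp
          rw [e1, ih _ _ z hz' hc']
          have e3 : J2 (ok = true) (mN (Nat.mod T (Nat.pow 2 (Nat.choose n (c+1))))) z ↔
              J2 (ok = true) (fun x => mN T (true :: x)) z := by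
            apply J2_congr
            intro x hx hxc
            have hrx := rk_lt x
            rw [hx, hz', hxc, hc'] at hrx
            unfold mN
            simp only [rk]
            rw [mod_bit]
            simp [hrx]
          rw [e3]

/-- The set coded by a split set. -/
def mT : (d : ℕ) → Tr d → List Bool → Prop
  | 0, A, w => mN A w
  | _+1, _, [] => False
  | d+1, T, true :: w => mT d T.1 w
  | d+1, T, false :: w => mT d T.2 w

theorem mN_lor (a b : ℕ) (w : List Bool) : mN (Nat.lor a b) w ↔ (mN a w ∨ mN b w) := by
  unfold mN
  rw [lor_bit]; simp

theorem or_spec (d : ℕ) : ∀ (a b : Tr d) (w : List Bool),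
    mT d (or' d a b) w ↔ (mT d a w ∨ mT d b w) := by
  induction d with
  | zero =>
    intro a b w
    exact mN_lor a b w
  | succ d ih =>
    intro a b w
    cases w with
    | nil => simp [mT]
    | cons x w =>
      cases x with
      | true => exact ih a.1 b.1 w
      | false => exact ih a.2 b.2 w

theorem zero_spec (d : ℕ) : ∀ (w : List Bool), ¬ mT d (zero d) w := by
  induction d with
  | zero =>
    intro w
    show ¬ mN 0 w
    simp [mN]
  | succ d ih =>
    intro w
    cases w with
    | nil => simp [mT]
    | cons x w =>
      cases x with
      | true => exact ih w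
      | false => exact ih w

theorem f1_spec (d : ℕ) : ∀ (n c : ℕ) (T : Tr d) (z : List Bool), z.length = n →
    z.count true = c → (mT d (f1 d n c T) z ↔ J1 (mT d T) z) := by
  induction d with
  | zero =>
    intro n c T z hz hc
    exact f1N_spec n c T z hz hc
  | succ d ih =>
    intro n c T z hz hc
    cases z with
    | nil => simp [mT, J1]
    | cons x z =>
      cases x with
      | true =>
        simp only [J1, iff_false]
        exact zero_spec d z
      | false =>
        rw [count_ft] at hc
        have hz' : z.length = n - 1 := by
          rw [← hz]; simp
        have ih' := ih (n-1) c T.2 z hz' hc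
        have e : mT (d+1) (f1 (d+1) n c T) (false :: z) ↔
            mT d (bif Nat.beq c 0 then T.1 else or' d T.1 (f1 d (n-1) c T.2)) z := Iff.rfl
        rw [e]
        have e2 : J1 (mT (d+1) T) (false :: z) ↔ (mT d T.1 z ∨ (true ∈ z ∧ J1 (mT d T.2) z)) :=
          Iff.rfl
        rw [e2]
        by_cases h0 : c = 0
        · have : true ∉ z := by
            rw [← List.count_eq_zero, hc, h0]
          rw [h0]
          simp [this]
        · have : true ∈ z := by
            by_contra hcon
            exact h0 (by rw [← hc]; exact List.count_eq_zero.mpr hcon)
          rw [beq_false h0]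
          simp only [cond_false]
          rw [or_spec, ih']
          simp [this]

theorem f2_spec (ok : Bool) (d : ℕ) : ∀ (n c : ℕ) (T : Tr d) (z : List Bool), z.length = n →
    z.count true = c → (mT d (f2 ok d n c T) z ↔ J2 (ok = true) (mT d T) z) := by
  induction d with
  | zero =>
    intro n c T z hz hc
    exact f2N_spec ok n c T z hz hc
  | succ d ih =>
    intro n c T z hz hc
    cases z with
    | nil => simp [mT, J2]
    | cons x z =>
      have hz' : z.length = n - 1 := by
        rw [← hz]; simp
      cases x with
      | false => exact Iff.rfl
      | true =>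
        rw [count_tt] at hc
        have hc' : z.count true = c - 1 := by omega
        have ih' := ih (n-1) (c-1) T.1 z hz' hc'
        have e : mT (d+1) (f2 ok (d+1) n c T) (true :: z) ↔
            mT d (bif ok then f2 ok d (n-1) (c-1) T.1 else zero d) z := Iff.rfl
        rw [e]
        have e2 : J2 (ok = true) (mT (d+1) T) (true :: z) ↔
            (ok = true ∧ J2 (ok = true) (mT d T.1) z) := Iff.rfl
        rw [e2]
        cases ok with
        | false => simp [zero_spec d z]
        | true => simpa using ih'

theorem pre_spec (d : ℕ) : ∀ (fl : Bool) (n c : ℕ) (T : Tr d) (w : List Bool), w.length = n →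
    w.count true = c → (mT d (pre d fl n c T) w ↔ Pre fl (mT d T) w) := by
  induction d with
  | zero =>
    intro fl n c T w hw hc
    exact leafPre_spec fl n c T w hw hc
  | succ d ih =>
    intro fl n c T w hw hc
    cases w with
    | nil => simp [mT, Pre]
    | cons x z =>
      have hz' : z.length = n - 1 := by
        rw [← hw]; simp
      cases x with
      | false =>
        rw [count_ft] at hc
        exact ih false (n-1) c T.2 z hz' hc
      | true =>
        rw [count_tt] at hc
        have hc' : z.count true = c - 1 := by omega
        have e : mT (d+1) (pre (d+1) fl n c T) (true :: z) ↔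
            mT d (or' d (pre d fl (n-1) (c-1) T.1)
              (or' d (f1 d (n-1) (c-1) T.2) (f2 (not fl) d (n-1) (c-1) T.2))) z := Iff.rfl
        have e2 : Pre fl (mT (d+1) T) (true :: z) ↔ (Pre fl (mT d T.1) z ∨
            J1 (mT d T.2) z ∨ J2 (fl = false) (mT d T.2) z) := Iff.rfl
        rw [e, e2, or_spec, or_spec, ih fl (n-1) (c-1) T.1 z hz' hc',
          f1_spec d (n-1) (c-1) T.2 z hz' hc', f2_spec (not fl) d (n-1) (c-1) T.2 z hz' hc']
        have e3 : ((not fl) = true) = (fl = false) := by
          cases fl <;> simp
        rw [e3]

theorem get_spec (d : ℕ) : ∀ (T : Tr d) (w : List Bool), d ≤ w.length →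
    (mT d T w ↔ mN (get d T (w.take d)) (w.drop d)) := by
  induction d with
  | zero => intro T w _; exact Iff.rfl
  | succ d ih =>
    intro T w hw
    cases w with
    | nil => simp at hw
    | cons x w =>
      have hw' : d ≤ w.length := by simpa using hw
      cases x with
      | true => exact ih T.1 w hw'
      | false => exact ih T.2 w hw'

/-- From the check of a leaf to the words of this leaf. -/
theorem leaf_check (d n c : ℕ) (T P : Tr d) (p z : List Bool) (hp : p.length = d)
    (hz : z.length = n) (hc : z.count true = c)
    (h : Nat.beq (Nat.xor (get d P p) (get d T p))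
      (Nat.sub (Nat.shiftLeft 1 (Nat.choose n c)) 1) = true) :
    (mT d P (p ++ z) ↔ ¬ mT d T (p ++ z)) := by
  have h1 := Nat.eq_of_beq_eq_true h
  have hr := rk_lt z
  rw [hz, hc] at hr
  have hlen : d ≤ (p ++ z).length := by simp [hp]
  rw [get_spec d P _ hlen, get_spec d T _ hlen]
  have ht : (p ++ z).take d = p := by rw [← hp]; simp
  have hdr : (p ++ z).drop d = z := by rw [← hp]; simp
  rw [ht, hdr]
  have h2 : (Nat.xor (get d P p) (get d T p)).testBit (rk z) = true := by
    rw [h1, ones_bit]; simpa using hr
  have h3 : (Nat.xor (get d P p) (get d T p)).testBit (rk z) =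
      ((get d P p).testBit (rk z) ^^ (get d T p).testBit (rk z)) := Nat.testBit_xor _ _ _
  rw [h3] at h2
  unfold mN
  cases h4 : (get d P p).testBit (rk z) <;> cases h5 : (get d T p).testBit (rk z) <;>
    simp_all

end R125.Mono
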